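import Mathlib
import Pool.Agent.V7H37.XG.T5

/-!
# Totally real fields of degree 8 over which `X_0(15)` and `X(s3, b5)` have only rational points

By theorems of Thorne and of Freitas, Le Hung and Siksek (which are not formalised here), an elliptic curve over a
totally real field `F` which does not contain `√5` is modular unless it gives a point of `F` on one of the two modular
curves `X_0(15)` and `X(s3, b5)`, which are the elliptic curves 15a1 and 15a3.  If these points are all rational over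
`ℚ`, then the elliptic curve has a rational `j`-invariant, and it is modular, too, if `F` is abelian over `ℚ`.

We prove that the points of 15a1 and 15a3 over `F` are the 8 rational ones for the fields `F = ℚ(√6, √p, √(2 q))` with
primes `p ≡ 19, 91` and `q ≡ 23, 47` modulo `120`, for the same fields with primes `p ≡ 19, 91` and `q ≡ 83, 107` modulo
`120` such that `q` is a square modulo `p`, and for the fields `F = ℚ(√6, √(2 p), √(2 q))` with primes `p ≡ 83, 107` and
`q ≡ 23, 47` modulo `120` such that `q` is a square modulo `p`.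

The proof is a two-descent on the eight quadratic twists of `X_0(15)`, by `1`, `6`, `f p`, `f q` and `f p q` with
`f ∣ 6`; the finite part of the local conditions is checked by the kernel.  The points over `F` are then finite in
number; there is none of odd order because the denominators grow under duplication, and the points of two-power order are
rational since `-1` and `5` are no squares in `F`.
-/

set_option autoImplicit false

namespace Pool.Agent.Results.MP_326854_nt.OcticFieldsH37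

/-- the affine rational points of 15a1: `y² + xy + y = x³ + x² - 10x - 10` -/
def points1 (F : Type) [Field F] : Set (F × F) :=
  {(-1, 0), (-13 / 4, 9 / 8), (3, -2), (8, 18), (8, -27), (-2, 3), (-2, -2)}

/-- the affine rational points of 15a3: `y² + xy + y = x³ + x² - 5x + 2` -/
def points3 (F : Type) [Field F] : Set (F × F) :=
  {(1, -1), (3 / 4, -7 / 8), (-3, 1), (2, 1), (2, -4), (0, 1), (0, -2)}

/-- every number field `F` generated by square roots of `a`, `b`, `c` is totally real, does not contain `√5`, and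
the affine points over `F` of the curves 15a1 and 15a3 are the given rational ones -/
def Good (a b c : ℕ) : Prop :=
  ∀ (F : Type) [Field F] [NumberField F] (x y z : F), x ^ 2 = (a : F) → y ^ 2 = (b : F) → z ^ 2 = (c : F) →
    IntermediateField.adjoin ℚ {x, y, z} = ⊤ →
    NumberField.IsTotallyReal F ∧ (¬ ∃ w : F, w ^ 2 = 5) ∧
    (∀ X Y : F, Y ^ 2 + X * Y + Y = X ^ 3 + X ^ 2 - 10 * X - 10 ↔ (X, Y) ∈ points1 F) ∧
    (∀ X Y : F, Y ^ 2 + X * Y + Y = X ^ 3 + X ^ 2 - 5 * X + 2 ↔ (X, Y) ∈ points3 F)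

section

open Pool.Agent.V7H37.XE Pool.Agent.V7H37.XG

lemma tf_one {f p : ℕ} (hf : f ∣ 6) (hp : p.Prime) (p5 : 5 < p)
    (h : chk f (p % 8) (p % 3) (c5 p) false 1 1 1 false = true) : TF ((f : ℚ) * p) := by
  have H : Dat f p 1 false :=
    { f6 := hf
      pp := hp
      p5 := p5
      qq := Or.inl rfl
      ht := by
        have : Fact p.Prime := ⟨hp⟩
        simp [sg]
      tab := by
        have e1 : decide (1 < 1) = false := by decide
        have e2 : c5 1 = 1 := by decide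
        rw [e1, e2]
        exact h }
  have := H.tw.tf
  simpa using this

lemma tf_two {f p q : ℕ} {t : Bool} (hf : f ∣ 6) (hp : p.Prime) (p5 : 5 < p) (hq : q.Prime) (q5 : 5 < q)
    (hne : q ≠ p) (ht : @legendreSym p ⟨hp⟩ q = sg t)
    (h : chk f (p % 8) (p % 3) (c5 p) true (q % 8) (q % 3) (c5 q) t = true) : TF ((f : ℚ) * (p * q)) := by
  have H : Dat f p q t :=
    { f6 := hf
      pp := hp
      p5 := p5
      qq := Or.inr ⟨hq, q5, hne⟩
      ht := ht
      tab := by
        have e1 : decide (1 < q) = true := by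
          rw [decide_eq_true_eq]; omega
        rw [e1]
        exact h }
  have := H.tw.tf
  simpa using this

lemma legendre_true_or {p q : ℕ} (hp : p.Prime) (hq : q.Prime) (hne : q ≠ p) :
    ∃ t : Bool, @legendreSym p ⟨hp⟩ q = sg t := by
  have : Fact p.Prime := ⟨hp⟩
  have h0 : ((q : ℤ) : ZMod p) ≠ 0 := by
    intro h
    rw [ZMod.intCast_zmod_eq_zero_iff_dvd] at h
    have h' : p ∣ q := by exact_mod_cast h
    exact hne ((Nat.prime_dvd_prime_iff_eq hp hq).1 h').symm
  rcases legendreSym.eq_one_or_neg_one p h0 with h | h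
  · exact ⟨false, by rw [h]; rfl⟩
  · exact ⟨true, by rw [h]; rfl⟩

lemma legendre_sq {p q : ℕ} (hp : p.Prime) (hq : q.Prime) (hne : q ≠ p) (hs : IsSquare (q : ZMod p)) :
    @legendreSym p ⟨hp⟩ q = sg false := by
  have : Fact p.Prime := ⟨hp⟩
  have h0 : ((q : ℤ) : ZMod p) ≠ 0 := by
    intro h
    rw [ZMod.intCast_zmod_eq_zero_iff_dvd] at h
    have h' : p ∣ q := by exact_mod_cast h
    exact hne ((Nat.prime_dvd_prime_iff_eq hp hq).1 h').symm
  rw [(legendreSym.eq_one_iff p h0).2 (by simpa using hs)]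
  rfl

lemma resA {p : ℕ} (h : p % 120 = 19 ∨ p % 120 = 91) : p % 8 = 3 ∧ p % 3 = 1 ∧ c5 p = 1 ∧ 5 < p := by
  refine ⟨by omega, by omega, ?_, by omega⟩
  unfold c5
  rw [if_pos (by omega)]

lemma resB {p : ℕ} (h : p % 120 = 83 ∨ p % 120 = 107) : p % 8 = 3 ∧ p % 3 = 2 ∧ c5 p = 2 ∧ 5 < p := by
  refine ⟨by omega, by omega, ?_, by omega⟩
  unfold c5
  rw [if_neg (by omega)]

lemma resC {p : ℕ} (h : p % 120 = 23 ∨ p % 120 = 47) : p % 8 = 7 ∧ p % 3 = 2 ∧ c5 p = 2 ∧ 5 < p := by
  refine ⟨by omega, by omega, ?_, by omega⟩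
  unfold c5
  rw [if_neg (by omega)]

lemma tA {p : ℕ} (hp : p.Prime) (h : p % 120 = 19 ∨ p % 120 = 91) :
    TF ((1 : ℕ) * (p : ℚ)) ∧ TF ((6 : ℕ) * (p : ℚ)) := by
  obtain ⟨e1, e2, e3, e4⟩ := resA h
  obtain ⟨c1, c2⟩ := (Bool.and_eq_true _ _).mp chk_A
  exact ⟨tf_one (by norm_num) hp e4 (by rw [e1, e2, e3]; exact c1),
    tf_one (by norm_num) hp e4 (by rw [e1, e2, e3]; exact c2)⟩

lemma tB {p : ℕ} (hp : p.Prime) (h : p % 120 = 83 ∨ p % 120 = 107) :
    TF ((2 : ℕ) * (p : ℚ)) ∧ TF ((3 : ℕ) * (p : ℚ)) := by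
  obtain ⟨e1, e2, e3, e4⟩ := resB h
  obtain ⟨c1, c2⟩ := (Bool.and_eq_true _ _).mp chk_B
  exact ⟨tf_one (by norm_num) hp e4 (by rw [e1, e2, e3]; exact c1),
    tf_one (by norm_num) hp e4 (by rw [e1, e2, e3]; exact c2)⟩

lemma tC {p : ℕ} (hp : p.Prime) (h : p % 120 = 23 ∨ p % 120 = 47) :
    TF ((2 : ℕ) * (p : ℚ)) ∧ TF ((3 : ℕ) * (p : ℚ)) := by
  obtain ⟨e1, e2, e3, e4⟩ := resC h
  obtain ⟨c1, c2⟩ := (Bool.and_eq_true _ _).mp chk_C
  exact ⟨tf_one (by norm_num) hp e4 (by rw [e1, e2, e3]; exact c1),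
    tf_one (by norm_num) hp e4 (by rw [e1, e2, e3]; exact c2)⟩

lemma tAC {p q : ℕ} (hp : p.Prime) (h : p % 120 = 19 ∨ p % 120 = 91) (hq : q.Prime)
    (h' : q % 120 = 23 ∨ q % 120 = 47) :
    TF ((2 : ℕ) * ((p : ℚ) * q)) ∧ TF ((3 : ℕ) * ((p : ℚ) * q)) := by
  obtain ⟨e1, e2, e3, e4⟩ := resA h
  obtain ⟨f1, f2, f3, f4⟩ := resC h'
  have hne : q ≠ p := by rintro rfl; omega
  obtain ⟨t, ht⟩ := legendre_true_or hp hq hne
  have hc : (chk 2 3 1 1 true 7 2 2 t && chk 3 3 1 1 true 7 2 2 t) = true := by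
    have := List.all_eq_true.1 chk_AC t (by cases t <;> simp)
    exact this
  obtain ⟨c1, c2⟩ := (Bool.and_eq_true _ _).mp hc
  exact ⟨tf_two (by norm_num) hp e4 hq f4 hne ht (by rw [e1, e2, e3, f1, f2, f3]; exact c1),
    tf_two (by norm_num) hp e4 hq f4 hne ht (by rw [e1, e2, e3, f1, f2, f3]; exact c2)⟩

lemma tAB {p q : ℕ} (hp : p.Prime) (h : p % 120 = 19 ∨ p % 120 = 91) (hq : q.Prime)
    (h' : q % 120 = 83 ∨ q % 120 = 107) (hs : IsSquare (q : ZMod p)) :
    TF ((2 : ℕ) * ((p : ℚ) * q)) ∧ TF ((3 : ℕ) * ((p : ℚ) * q)) := by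
  obtain ⟨e1, e2, e3, e4⟩ := resA h
  obtain ⟨f1, f2, f3, f4⟩ := resB h'
  have hne : q ≠ p := by rintro rfl; omega
  have ht := legendre_sq hp hq hne hs
  obtain ⟨c1, c2⟩ := (Bool.and_eq_true _ _).mp chk_AB
  exact ⟨tf_two (by norm_num) hp e4 hq f4 hne ht (by rw [e1, e2, e3, f1, f2, f3]; exact c1),
    tf_two (by norm_num) hp e4 hq f4 hne ht (by rw [e1, e2, e3, f1, f2, f3]; exact c2)⟩

lemma tBC {p q : ℕ} (hp : p.Prime) (h : p % 120 = 83 ∨ p % 120 = 107) (hq : q.Prime)
    (h' : q % 120 = 23 ∨ q % 120 = 47) (hs : IsSquare (q : ZMod p)) :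
    TF ((1 : ℕ) * ((p : ℚ) * q)) ∧ TF ((6 : ℕ) * ((p : ℚ) * q)) := by
  obtain ⟨e1, e2, e3, e4⟩ := resB h
  obtain ⟨f1, f2, f3, f4⟩ := resC h'
  have hne : q ≠ p := by rintro rfl; omega
  have ht := legendre_sq hp hq hne hs
  obtain ⟨c1, c2⟩ := (Bool.and_eq_true _ _).mp chk_BC
  exact ⟨tf_two (by norm_num) hp e4 hq f4 hne ht (by rw [e1, e2, e3, f1, f2, f3]; exact c1),
    tf_two (by norm_num) hp e4 hq f4 hne ht (by rw [e1, e2, e3, f1, f2, f3]; exact c2)⟩

lemma good_of {a b c : ℕ} (ha : ¬ 5 ∣ a) (hb : ¬ 5 ∣ b) (hc : ¬ 5 ∣ c)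
    (ta : TF a) (tb : TF b) (tc : TF c) (tab : TF (a * b)) (tac : TF (a * c)) (tbc : TF (b * c))
    (tabc : TF (a * b * c)) : Good a b c := by
  intro F _ _ x y z hx hy hz hadj
  have pos : ∀ n : ℕ, ¬ 5 ∣ n → 0 < n := by
    intro n hn
    rcases Nat.eq_zero_or_pos n with h | h
    · rw [h] at hn; exact absurd (dvd_zero 5) hn
    · exact h
  have hreal : NumberField.IsTotallyReal F := real_of_gen {x, y, z} (by
    intro s hs
    rcases hs with rfl | rfl | rfl
    · exact ⟨a, hx⟩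
    · exact ⟨b, hy⟩
    · exact ⟨c, hz⟩) hadj
  have h5 : ¬ ∃ w : F, w ^ 2 = 5 := by
    rintro ⟨w, hw⟩
    exact no_root ha hb hc hx hy hz hadj w hw
  have H := three_pts h5 (not_neg_one hreal) (pos a ha) (pos b hb) (pos c hc) tf1 ta tb tc tab tac tbc tabc hx hy hz
    hadj
  exact ⟨hreal, h5, pts1 H, pts3 H h5⟩

lemma two_scale {D E : ℚ} (h : TF D) (e : E = D * 2 ^ 2) : TF E := by
  rw [e]; exact h.scale two_ne_zero

lemma same {D E : ℚ} (h : TF D) (e : E = D) : TF E := by
  rw [e]; exact h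

end

/-- The theorem of this file. -/
theorem result :
    (∀ p q : ℕ, p.Prime → q.Prime → (p % 120 = 19 ∨ p % 120 = 91) → (q % 120 = 23 ∨ q % 120 = 47) →
      Good 6 p (2 * q)) ∧
    (∀ p q : ℕ, p.Prime → q.Prime → (p % 120 = 19 ∨ p % 120 = 91) → (q % 120 = 83 ∨ q % 120 = 107) →
      IsSquare (q : ZMod p) → Good 6 p (2 * q)) ∧
    (∀ p q : ℕ, p.Prime → q.Prime → (p % 120 = 83 ∨ p % 120 = 107) → (q % 120 = 23 ∨ q % 120 = 47) →
      IsSquare (q : ZMod p) → Good 6 (2 * p) (2 * q)) := by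
  refine ⟨?_, ?_, ?_⟩
  · intro p q hp hq h h'
    obtain ⟨a1, a2⟩ := tA hp h
    obtain ⟨b1, b2⟩ := tC hq h'
    obtain ⟨c1, c2⟩ := tAC hp h hq h'
    refine good_of (by norm_num) (by omega) (by omega) ?_ ?_ ?_ ?_ ?_ ?_ ?_
    · exact same Pool.Agent.V7H37.XG.tf6 (by norm_num)
    · exact same a1 (by push_cast; ring)
    · exact same b1 (by push_cast; ring)
    · exact same a2 (by push_cast; ring)
    · exact two_scale b2 (by push_cast; ring)
    · exact same c1 (by push_cast; ring)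
    · exact two_scale c2 (by push_cast; ring)
  · intro p q hp hq h h' hs
    obtain ⟨a1, a2⟩ := tA hp h
    obtain ⟨b1, b2⟩ := tB hq h'
    obtain ⟨c1, c2⟩ := tAB hp h hq h' hs
    refine good_of (by norm_num) (by omega) (by omega) ?_ ?_ ?_ ?_ ?_ ?_ ?_
    · exact same Pool.Agent.V7H37.XG.tf6 (by norm_num)
    · exact same a1 (by push_cast; ring)
    · exact same b1 (by push_cast; ring)
    · exact same a2 (by push_cast; ring)
    · exact two_scale b2 (by push_cast; ring)
    · exact same c1 (by push_cast; ring)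
    · exact two_scale c2 (by push_cast; ring)
  · intro p q hp hq h h' hs
    obtain ⟨a1, a2⟩ := tB hp h
    obtain ⟨b1, b2⟩ := tC hq h'
    obtain ⟨c1, c2⟩ := tBC hp h hq h' hs
    refine good_of (by norm_num) (by omega) (by omega) ?_ ?_ ?_ ?_ ?_ ?_ ?_
    · exact same Pool.Agent.V7H37.XG.tf6 (by norm_num)
    · exact same a1 (by push_cast; ring)
    · exact same b1 (by push_cast; ring)
    · exact two_scale a2 (by push_cast; ring)
    · exact two_scale b2 (by push_cast; ring)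
    · exact two_scale c1 (by push_cast; ring)
    · exact two_scale c2 (by push_cast; ring)

end Pool.Agent.Results.MP_326854_nt.OcticFieldsH37
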