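import Pool.Agent.V7H44.DV.Exact

/-!
# Modularity of abelian varieties of `GL₂`-type over (totally real) number fields: one place decides

Let `M / F` be a finite extension of number fields (the absolute Galois groups are `H'` and `H`), `p` a
prime number, `S` a set of finite places and `w` one place of `M`. The criterion `NonSplit` says that `w`
does not split completely in any cyclic extension of `M` of degree `p` which is unramified at the finite
places not in `S`. (For finite `S` this is a finite computation in the class group and the `S`-units of
`M`.)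

(1) The criterion holds if and only if, for all continuous residually unipotent representations of
`G_M` unramified outside `S` over Noetherian local domains with finite residue field of characteristic
`p`, the decomposition group of the one place `w` is dense in the image.

(2) Totally real (and other) fields with this property, for `p = 2` and `w` above `2`: all fields in the
`2`-extensions of `ℚ` unramified outside `{2, q, ∞}`, where `q` is a prime number that is `3` or `5`
modulo `8`, for `S = {2, q}` and for all smaller `S`: for instance `ℚ(√2)`, `ℚ(√q)`, `ℚ(√(2q))`, the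
real fields of `2`-power conductor. In general the property is inherited by the fields in the
`p`-extensions unramified outside `S`, and by smaller sets `S`.

For the other parts let the criterion hold, and let `ρ`, `ρ'` be continuous representations of `G_F`,
over the fraction field `Q` of a Noetherian local domain with finite residue field of characteristic
`p`, whose restrictions to `G_M` are residually unipotent and unramified outside `S`. This is so for
`V_λ(A)`, `λ` a place above `p` of the coefficient field, for the abelian varieties `A` over `F` of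
`GL₂`-type which have good reduction outside `S` over `M` and such that the points of order `λ` generate
a `p`-extension of `M` (any `A` is allowed if `M` is large enough), and for the Galois representations of
the Hilbert newforms with the analogous property.

(3) If `ρ` has dimension `2`, is irreducible, and is potentially ordinary or multiplicative at the place
`w`, then it is dihedral. So the abelian varieties of `GL₂`-type of this kind have complex
multiplication, and they are modular.

(4) The traces of `ρ` and `ρ'` agree on `G_M` if they agree on the decomposition group of the one place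
`w`. So (with `M = F`) `A` is associated to the newform `f` if and only if the traces of their `λ`-adic
representations agree on the decomposition group of the one place `w`.

(5) A linear map which commutes with the decomposition group of `w` commutes with `G_M`.

(6) If the endomorphisms of `ρ` over all finite extensions of `F` are homotheties, and `ρ` and `ρ'` are
isomorphic over a finite extension of `M_w`, then `ρ'` is isomorphic to the twist of `ρ` by a character
of finite order of `G_F`. So if `A` is associated to a Hilbert newform `f`, and `A'` (with the same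
field of coefficients) has a representation isomorphic to that of `A` over a finite extension of the
one completion `M_w`, then `A'` is modular, by a twist of `f`.

The deductions for abelian varieties and newforms from the theorems of Faltings and others are not part
of the formal proof. The starting library is used for the family in (2) and for the representation
theory of stable lines.
-/

set_option autoImplicit false

open IsLocalRing Matrix

namespace Pool.Agent.Results.MP_326854_nt.OnePlaceH44

open Pool.Agent.V7H44.DVS

/-- **One place decides.** -/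
theorem result :
    -- `F` and `M` are number fields with absolute Galois groups `H` and `H'`
    (∀ (p ℓ : ℕ) [Fact p.Prime] [Fact ℓ.Prime] (H H' : Subgroup AbsGal), H' ≤ H →
      IsOpen (H' : Set AbsGal) → ∀ (S : PlaceSet) (ι : Place ℓ),
    -- (1) the criterion is necessary and sufficient for the density of the decomposition group
    (NonSplit p H' (outside S) (Dec ι) ↔
      ∀ (A Q : Type) [CommRing A] [IsLocalRing A] [TopologicalSpace A] [Field Q] [Algebra A Q],
        Coefficients p A Q → ∀ (n : ℕ) (ρ : AbsGal → Matrix (Fin n) (Fin n) A),
          IsRep H' H' (outside S) ρ → ∀ (m : ℕ), ∀ σ ∈ H',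
            ∃ δ ∈ H', δ ∈ Dec ι ∧ ∀ i j, ρ σ i j - ρ δ i j ∈ maximalIdeal A ^ m) ∧
    (NonSplit p H' (outside S) (Dec ι) →
    ∀ (A Q : Type) [CommRing A] [IsLocalRing A] [TopologicalSpace A] [Field Q] [Algebra A Q],
      Coefficients p A Q →
    -- (3) potentially ordinary representations are dihedral
    (∀ ρ : AbsGal → Matrix (Fin 2) (Fin 2) A, IsRep H H' (outside S) ρ → Irreducible Q H ρ →
      PotentiallyOrdinary Q H ρ {δ | δ ∈ H' ∧ δ ∈ Dec ι} → Dihedral Q H ρ) ∧
    (∀ (n n' : ℕ) (ρ : AbsGal → Matrix (Fin n) (Fin n) A)
      (ρ' : AbsGal → Matrix (Fin n') (Fin n') A), IsRep H H' (outside S) ρ →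
      IsRep H H' (outside S) ρ' →
      -- (4) traces
      ((∀ δ ∈ H', δ ∈ Dec ι → (ρ δ).trace = (ρ' δ).trace) →
        ∀ σ ∈ H', (ρ σ).trace = (ρ' σ).trace) ∧
      -- (5) maps
      ∀ X : Matrix (Fin n') (Fin n) Q, (∀ δ ∈ H', δ ∈ Dec ι → Commutes Q ρ ρ' X δ) →
        ∀ σ ∈ H', Commutes Q ρ ρ' X σ) ∧
    -- (6) potential isomorphisms
    ∀ n : ℕ, 0 < n → ∀ ρ ρ' : AbsGal → Matrix (Fin n) (Fin n) A, IsRep H H' (outside S) ρ →
      IsRep H H' (outside S) ρ' → NoEndomorphisms Q H ρ →
      ∀ X : Matrix (Fin n) (Fin n) Q, IsUnit X →
      (∃ D' : Subgroup AbsGal, FinitelyCovered H {δ | δ ∈ H' ∧ δ ∈ Dec ι} D' ∧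
        ∀ δ ∈ D', Commutes Q ρ ρ' X δ) → IsTwist Q H ρ ρ' X)) ∧
    -- (2) a family, and inheritance in `p`-extensions
    (∀ q : ℕ, q.Prime → q % 8 = 3 ∨ q % 8 = 5 → ∀ L : Subgroup AbsGal,
      InPExtension 2 ⊤ L (outside (above {2, q})) → ∀ P ⊆ ({2, q} : Set ℕ), ∀ ι : Place 2,
          NonSplit 2 L (outside (above P)) (Dec ι)) ∧
    ∀ (p ℓ : ℕ) [Fact p.Prime] [Fact ℓ.Prime] (K L : Subgroup AbsGal), IsOpen (K : Set AbsGal) →
      ∀ (S : PlaceSet) (ι : Place ℓ), IsPlaceSet K S → NonSplit p K (outside S) (Dec ι) →
        InPExtension p K L (outside S) → NonSplit p L (outside S) (Dec ι) := by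
  have inh : ∀ (p ℓ : ℕ) [Fact p.Prime] [Fact ℓ.Prime] (K L : Subgroup AbsGal),
      IsOpen (K : Set AbsGal) →
      ∀ (S : PlaceSet) (ι : Place ℓ), IsPlaceSet K S → NonSplit p K (outside S) (Dec ι) →
        InPExtension p K L (outside S) → NonSplit p L (outside S) (Dec ι) := by
    intro p ℓ _ _ K L hK S ι hS h hL
    rw [← coe_DecS] at h ⊢
    exact inherit hK (fun t ht r hr => outside_conj hS t ht r hr) h hL
  refine ⟨fun p ℓ _ _ H H' hH hH' S ι => ⟨⟨fun h A Q _ _ _ _ _ hA n ρ hρ m σ hσ => ?_,
    fun h => ?_⟩, fun h A Q _ _ _ _ _ hA => ?_⟩, fun q hq hq8 L hL P hP ι => ?_, inh⟩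
  · rw [← coe_DecS] at h
    exact density hA le_rfl hH' h hρ m σ hσ
  · exact necessary fun A Q _ _ _ _ _ hA ρ hρ m σ hσ => h A Q hA 2 ρ hρ m σ hσ
  · rw [← coe_DecS] at h
    exact ⟨fun ρ hρ hirr ho => dihedral hA hH hH' h hρ hirr ho,
      fun n n' ρ ρ' hρ hρ' => ⟨fun ht σ hσ => traces hA hH hH' h hρ hρ' ht σ hσ,
        fun X hX σ hσ => maps hA hH hH' h hρ hρ' X hX σ hσ⟩,
      fun n hn ρ ρ' hρ hρ' hend X hX hD => twists hA hH hH' h hn hρ hρ' hend X hX hD⟩
  · have : Fact (Nat.Prime 2) := ⟨Nat.prime_two⟩
    have h1 := inh 2 2 ⊤ L isOpen_univ (above {2, q}) ι (fun _ _ _ _ _ _ _ h => h)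
      (family_two hq hq8 ι) hL
    intro V hV hT
    refine h1 V hV fun σ hσ hσ' => hT σ hσ ?_
    obtain ⟨l, hl, ι', h2, h3⟩ := hσ'
    exact ⟨l, hl, ι', fun h => h2 (hP h), h3⟩

end Pool.Agent.Results.MP_326854_nt.OnePlaceH44
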